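import Mathlib

/-!
Two agents: walks between balanced colourings along the union of two perfect matchings.
-/

namespace Pool.Agent.Q90.SD

open Finset

/-- the partner of a number: `0 ↔ 1`, `2 ↔ 3`, ... -/
def par (k : ℕ) : ℕ := if k % 2 = 0 then k + 1 else k - 1

theorem par_par (k : ℕ) : par (par k) = k := by
  unfold par
  split_ifs <;> omega

theorem par_ne (k : ℕ) : par k ≠ k := by
  unfold par
  split_ifs <;> omega

theorem par_half (k : ℕ) : par k / 2 = k / 2 := by
  unfold par
  split_ifs <;> omega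

theorem par_lt {k m : ℕ} (h : k < m + m) : par k < m + m := by
  unfold par
  split_ifs <;> omega

variable {M : Type} [Fintype M] [DecidableEq M]

/-- A ranking `r` together with the matching of its places `2i`, `2i+1`. -/
structure Pairing (M : Type) where
  r : M → ℕ
  σ : M → M
  inj : Function.Injective r
  invol : ∀ x, σ (σ x) = x
  ne : ∀ x, σ x ≠ x
  half : ∀ x, r (σ x) / 2 = r x / 2

/-- the pairing of an enumeration -/
def ofEquiv {m : ℕ} (e : M ≃ Fin (m + m)) : Pairing M where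
  r x := e x
  σ x := e.symm ⟨par (e x), par_lt (e x).2⟩
  inj x y h := e.injective (Fin.ext h)
  invol x := by
    have : (⟨par (e (e.symm ⟨par (e x), par_lt (e x).2⟩)), par_lt (e _).2⟩ : Fin (m + m)) = e x := by
      apply Fin.ext
      simp only [Equiv.apply_symm_apply, par_par]
    rw [this, Equiv.symm_apply_apply]
  ne x h := by
    have h1 := congrArg e h
    rw [Equiv.apply_symm_apply] at h1
    have h2 := congrArg Fin.val h1
    exact par_ne _ h2
  half x := by
    simp only [Equiv.apply_symm_apply, par_half]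

/-- sign of a Boolean -/
def c (b : Bool) : ℤ := if b then 1 else -1

theorem c_not (b : Bool) : c (!b) = - c b := by cases b <;> simp [c]

/-- `T` is a lower set for the ranking -/
def Low (P : Pairing M) (T : Finset M) : Prop := ∀ x ∈ T, ∀ y, P.r y ≤ P.r x → y ∈ T

/-- `U` is a lower set of pairs -/
def PLow (P : Pairing M) (U : Finset M) : Prop := ∀ x ∈ U, ∀ y, P.r y / 2 ≤ P.r x / 2 → y ∈ U

theorem PLow.inv {P : Pairing M} {U : Finset M} (h : PLow P U) {x : M} : P.σ x ∈ U ↔ x ∈ U :=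
  ⟨fun hx => h _ hx _ (P.half x).ge, fun hx => h _ hx _ (P.half x).le⟩

theorem sum_proper {P : Pairing M} {U : Finset M} (h : PLow P U) {A : M → Bool}
    (hA : ∀ x, A (P.σ x) = !A x) : ∑ x ∈ U, c (A x) = 0 := by
  have h1 : ∑ x ∈ U, c (A x) = ∑ x ∈ U, c (A (P.σ x)) := by
    symm
    refine Finset.sum_bij' (fun x _ => P.σ x) (fun x _ => P.σ x) ?_ ?_ ?_ ?_ ?_
    · intro x hx
      exact h.inv.2 hx
    · intro x hx
      exact h.inv.2 hx
    · intro x hx
      exact P.invol x
    · intro x hx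
      exact P.invol x
    · intro x hx
      rfl
  have h2 : ∑ x ∈ U, c (A (P.σ x)) = - ∑ x ∈ U, c (A x) := by
    rw [← Finset.sum_neg_distrib]
    refine Finset.sum_congr rfl fun x _ => ?_
    rw [hA, c_not]
  omega

/-- the pairs contained in a lower set, and at most one further element -/
theorem low_split {P : Pairing M} {T : Finset M} (h : Low P T) (f : M → Bool) :
    ∃ U, PLow P U ∧ |∑ x ∈ T, c (f x) - ∑ x ∈ U, c (f x)| ≤ 1 := by
  classical
  refine ⟨T.filter fun x => P.σ x ∈ T, ?_, ?_⟩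
  · intro x hx y hy
    rw [Finset.mem_filter] at hx ⊢
    have hxs : P.r (P.σ x) ≠ P.r x := fun h' => P.ne x (P.inj h')
    have hh := P.half x
    have hy' := P.half y
    have key : ∀ z, P.r z / 2 ≤ P.r x / 2 → z ∈ T := by
      intro z hz
      rcases Nat.lt_or_gt_of_ne hxs with h1 | h1
      · exact h x hx.1 z (by omega)
      · exact h _ hx.2 z (by omega)
    exact ⟨key y hy, key _ (by omega)⟩
  · have h1 : ∑ x ∈ T, c (f x) = ∑ x ∈ T.filter (fun x => P.σ x ∈ T), c (f x) +
        ∑ x ∈ T.filter (fun x => ¬ P.σ x ∈ T), c (f x) :=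
      (Finset.sum_filter_add_sum_filter_not T _ _).symm
    rw [h1, add_sub_cancel_left]
    have h2 : (T.filter (fun x => ¬ P.σ x ∈ T)).card ≤ 1 := by
      rw [Finset.card_le_one]
      intro a ha b hb
      rw [Finset.mem_filter] at ha hb
      by_contra hab
      have hr : P.r a ≠ P.r b := fun h' => hab (P.inj h')
      have ha' := P.half a
      have hb' := P.half b
      have hxa : P.r (P.σ a) ≠ P.r a := fun h' => P.ne a (P.inj h')
      have hxb : P.r (P.σ b) ≠ P.r b := fun h' => P.ne b (P.inj h')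
      rcases Nat.lt_or_gt_of_ne hr with h3 | h3
      · by_cases h4 : P.r (P.σ a) ≤ P.r b
        · exact ha.2 (h _ hb.1 _ h4)
        · omega
      · by_cases h4 : P.r (P.σ b) ≤ P.r a
        · exact hb.2 (h _ ha.1 _ h4)
        · omega
    have h3 : |∑ x ∈ T.filter (fun x => ¬ P.σ x ∈ T), c (f x)| ≤
        ∑ x ∈ T.filter (fun x => ¬ P.σ x ∈ T), (1 : ℤ) := by
      refine (Finset.abs_sum_le_sum_abs _ _).trans (Finset.sum_le_sum fun x _ => ?_)
      unfold c
      split_ifs <;> simp
    rw [Finset.sum_const, nsmul_eq_mul, mul_one] at h3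
    refine h3.trans ?_
    exact_mod_cast h2

/-- admissible colourings: `true` is agent 1, `false` is agent 2 -/
def Good (P Q : Pairing M) (A : M → Bool) : Prop :=
  (∀ U, PLow P U → 0 ≤ ∑ x ∈ U, c (A x)) ∧ ∀ x, A (Q.σ x) = !A x

theorem Good.one {P Q : Pairing M} {A : M → Bool} (h : Good P Q A) {T : Finset M} (hT : Low P T) :
    -1 ≤ ∑ x ∈ T, c (A x) := by
  obtain ⟨U, hU, h1⟩ := low_split hT A
  have h2 := h.1 U hU
  rw [abs_le] at h1
  omega

theorem Good.two {P Q : Pairing M} {A : M → Bool} (h : Good P Q A) {T : Finset M} (hT : Low Q T) :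
    ∑ x ∈ T, c (A x) ≤ 1 := by
  obtain ⟨U, hU, h1⟩ := low_split hT A
  have h2 := sum_proper hU h.2
  rw [abs_le] at h1
  omega

/-- proper colourings -/
def Proper (P Q : Pairing M) (A : M → Bool) : Prop :=
  (∀ x, A (P.σ x) = !A x) ∧ ∀ x, A (Q.σ x) = !A x

theorem Proper.good {P Q : Pairing M} {A : M → Bool} (h : Proper P Q A) : Good P Q A :=
  ⟨fun _ hU => (sum_proper hU h.1).ge, h.2⟩

/-- exchange of `x` and `y` -/
def Step (P Q : Pairing M) (A B : M → Bool) : Prop :=
  Good P Q A ∧ Good P Q B ∧ ∃ x y, A x = false ∧ A y = true ∧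
    ∀ z, B z = if z = x ∨ z = y then !A z else A z

/-- the permutation `σ₁ σ₂` -/
def tau (P Q : Pairing M) : Equiv.Perm M where
  toFun x := P.σ (Q.σ x)
  invFun x := Q.σ (P.σ x)
  left_inv x := by
    show Q.σ (P.σ (P.σ (Q.σ x))) = x
    rw [P.invol, Q.invol]
  right_inv x := by
    show P.σ (Q.σ (Q.σ (P.σ x))) = x
    rw [Q.invol, P.invol]

theorem tau_apply (P Q : Pairing M) (x : M) : tau P Q x = P.σ (Q.σ x) := rfl

theorem tau_symm_apply (P Q : Pairing M) (x : M) : (tau P Q)⁻¹ x = Q.σ (P.σ x) := rfl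

/-- the second matching as a permutation -/
def qp (Q : Pairing M) : Equiv.Perm M := ⟨Q.σ, Q.σ, Q.invol, Q.invol⟩

theorem sigma_zpow (P Q : Pairing M) (n : ℤ) (x : M) :
    Q.σ (((tau P Q) ^ n) x) = ((tau P Q) ^ (-n)) (Q.σ x) := by
  have h1 : qp Q * tau P Q * (qp Q)⁻¹ = (tau P Q)⁻¹ := by
    ext y
    show Q.σ (P.σ (Q.σ (Q.σ y))) = Q.σ (P.σ y)
    rw [Q.invol]
  have h2 : (tau P Q) ^ (-n) = qp Q * (tau P Q) ^ n * (qp Q)⁻¹ := by
    rw [zpow_neg, ← inv_zpow, ← h1, conj_zpow]
  rw [h2]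
  show Q.σ _ = Q.σ (((tau P Q) ^ n) (Q.σ (Q.σ x)))
  rw [Q.invol]

theorem not_cycle (P Q : Pairing M) (x : M) (i : ℤ) : ((tau P Q) ^ i) x ≠ Q.σ x := by
  intro h
  rcases Int.even_or_odd' i with ⟨k, hk | hk⟩
  · -- `Q.σ (τ^k x) = τ^k x`
    have h1 : ((tau P Q) ^ (-k)) (((tau P Q) ^ i) x) = ((tau P Q) ^ (-k)) (Q.σ x) := by rw [h]
    rw [← sigma_zpow, ← Equiv.Perm.mul_apply, ← zpow_add, hk] at h1
    have h2 : -k + 2 * k = k := by ring
    rw [h2] at h1
    exact Q.ne _ h1.symm
  · have h1 : ((tau P Q) ^ (-k)) (((tau P Q) ^ i) x) = ((tau P Q) ^ (-k)) (Q.σ x) := by rw [h]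
    rw [← sigma_zpow, ← Equiv.Perm.mul_apply, ← zpow_add, hk] at h1
    have h2 : -k + (2 * k + 1) = 1 + k := by ring
    rw [h2, zpow_add, Equiv.Perm.mul_apply, zpow_one, tau_apply] at h1
    exact P.ne _ h1

theorem exists_proper (P Q : Pairing M) : ∃ A : M → Bool, Proper P Q A := by
  classical
  let s : Setoid M := Equiv.Perm.SameCycle.setoid (tau P Q)
  obtain ⟨f, hf⟩ := Countable.exists_injective_nat (Quotient s)
  have hP : ∀ x, (Quotient.mk s (P.σ x)) = Quotient.mk s (Q.σ x) := by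
    intro x
    apply Quotient.sound
    refine ⟨-1, ?_⟩
    rw [zpow_neg, zpow_one, tau_symm_apply, P.invol]
  have hne : ∀ x, Quotient.mk s x ≠ Quotient.mk s (Q.σ x) := by
    intro x h
    obtain ⟨i, hi⟩ := Quotient.exact h
    exact not_cycle P Q x i hi
  have hQQ : ∀ x, (Quotient.mk s (Q.σ (P.σ x))) = Quotient.mk s x := by
    intro x
    apply Quotient.sound
    refine ⟨1, ?_⟩
    rw [zpow_one, tau_apply, Q.invol, P.invol]
  have key : ∀ x, decide (f (Quotient.mk s (Q.σ x)) < f (Quotient.mk s x)) =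
      !decide (f (Quotient.mk s x) < f (Quotient.mk s (Q.σ x))) := by
    intro x
    have h1 : f (Quotient.mk s x) ≠ f (Quotient.mk s (Q.σ x)) := fun h => hne x (hf h)
    rw [← decide_not]
    apply decide_eq_decide.2
    omega
  refine ⟨fun x => decide (f (Quotient.mk s x) < f (Quotient.mk s (Q.σ x))), fun x => ?_,
    fun x => ?_⟩
  · show decide (f (Quotient.mk s (P.σ x)) < f (Quotient.mk s (Q.σ (P.σ x)))) = _
    rw [hP, hQQ]
    exact key x
  · show decide (f (Quotient.mk s (Q.σ x)) < f (Quotient.mk s (Q.σ (Q.σ x)))) = _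
    rw [Q.invol]
    exact key x

/-- the part of the cycle which has been flipped after `j` steps -/
def F (P Q : Pairing M) (v : M) (j : ℕ) : Finset M :=
  (range j).biUnion fun i => {((tau P Q) ^ i) v, Q.σ (((tau P Q) ^ i) v)}

theorem mem_F {P Q : Pairing M} {v : M} {j : ℕ} {x : M} :
    x ∈ F P Q v j ↔ ∃ i < j, x = ((tau P Q) ^ i) v ∨ x = Q.σ (((tau P Q) ^ i) v) := by
  simp [F]

/-- flip the colours on a set -/
def fl (S : Finset M) (A : M → Bool) (x : M) : Bool := if x ∈ S then !A x else A x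

theorem pow_color {P Q : Pairing M} {A : M → Bool} (hA : Proper P Q A) (v : M) (i : ℕ) :
    A (((tau P Q) ^ i) v) = A v := by
  induction i with
  | zero => rfl
  | succ i ih =>
    rw [pow_succ', Equiv.Perm.mul_apply, tau_apply, hA.1, hA.2, ih]
    simp

theorem not_mem_F {P Q : Pairing M} {A : M → Bool} (hA : Proper P Q A) {v : M} {j : ℕ}
    (hj : ∀ i < j, ((tau P Q) ^ j) v ≠ ((tau P Q) ^ i) v) :
    ((tau P Q) ^ j) v ∉ F P Q v j ∧ Q.σ (((tau P Q) ^ j) v) ∉ F P Q v j := by
  constructor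
  · rw [mem_F]
    rintro ⟨i, hi, h | h⟩
    · exact hj i hi h
    · have h1 := congrArg A h
      rw [hA.2, pow_color hA, pow_color hA] at h1
      cases h2 : A v <;> rw [h2] at h1 <;> simp at h1
  · rw [mem_F]
    rintro ⟨i, hi, h | h⟩
    · have h1 := congrArg A h
      rw [hA.2, pow_color hA, pow_color hA] at h1
      cases h2 : A v <;> rw [h2] at h1 <;> simp at h1
    · apply hj i hi
      have h1 := congrArg Q.σ h
      rwa [Q.invol, Q.invol] at h1

theorem F_succ {P Q : Pairing M} {v : M} {j : ℕ} {x : M} :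
    x ∈ F P Q v (j + 1) ↔ x ∈ F P Q v j ∨ x = ((tau P Q) ^ j) v ∨ x = Q.σ (((tau P Q) ^ j) v) := by
  rw [mem_F, mem_F]
  constructor
  · rintro ⟨i, hi, h⟩
    rcases Nat.lt_succ_iff_lt_or_eq.1 hi with h1 | h1
    · exact Or.inl ⟨i, h1, h⟩
    · subst h1
      exact Or.inr h
  · rintro (⟨i, hi, h⟩ | h)
    · exact ⟨i, by omega, h⟩
    · exact ⟨j, by omega, h⟩

theorem sum_fl_succ {P Q : Pairing M} {A : M → Bool} (hA : Proper P Q A) {v : M} {j : ℕ}
    (hj : ∀ i < j, ((tau P Q) ^ j) v ≠ ((tau P Q) ^ i) v) (hv : A v = false) (U : Finset M) :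
    ∑ x ∈ U, c (fl (F P Q v (j + 1)) A x) = ∑ x ∈ U, c (fl (F P Q v j) A x) +
      (if ((tau P Q) ^ j) v ∈ U then 2 else 0) - (if Q.σ (((tau P Q) ^ j) v) ∈ U then 2 else 0) := by
  obtain ⟨h1, h2⟩ := not_mem_F hA hj
  set a := ((tau P Q) ^ j) v with ha
  have hAa : A a = false := by rw [ha, pow_color hA, hv]
  have hAb : A (Q.σ a) = true := by rw [hA.2, hAa]; rfl
  have hab : a ≠ Q.σ a := fun h => Q.ne a h.symm
  have h3 : ∀ x, c (fl (F P Q v (j + 1)) A x) = c (fl (F P Q v j) A x) +
      (if a = x then 2 else 0) - (if Q.σ a = x then 2 else 0) := by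
    intro x
    by_cases hxa : a = x
    · subst hxa
      have h4 : a ∈ F P Q v (j + 1) := F_succ.2 (Or.inr (Or.inl rfl))
      rw [if_pos rfl, if_neg (Q.ne a)]
      unfold fl
      rw [if_pos h4, if_neg h1, hAa]
      simp [c]
    · by_cases hxb : Q.σ a = x
      · subst hxb
        have h4 : Q.σ a ∈ F P Q v (j + 1) := F_succ.2 (Or.inr (Or.inr rfl))
        rw [if_pos rfl, if_neg hxa]
        unfold fl
        rw [if_pos h4, if_neg h2, hAb]
        simp [c]
      · rw [if_neg hxa, if_neg hxb]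
        unfold fl
        have h4 : x ∈ F P Q v (j + 1) ↔ x ∈ F P Q v j := by
          rw [F_succ]
          constructor
          · rintro (h | h | h)
            · exact h
            · exact absurd h.symm hxa
            · exact absurd h.symm hxb
          · exact Or.inl
        by_cases h5 : x ∈ F P Q v j
        · rw [if_pos (h4.2 h5), if_pos h5]; ring
        · rw [if_neg (fun h => h5 (h4.1 h)), if_neg h5]; ring
  rw [Finset.sum_congr rfl fun x _ => h3 x, Finset.sum_sub_distrib, Finset.sum_add_distrib,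
    Finset.sum_ite_eq, Finset.sum_ite_eq]

theorem F_inv {P Q : Pairing M} {v : M} {j : ℕ} {x : M} (h : x ∈ F P Q v j) :
    Q.σ x ∈ F P Q v j := by
  rw [mem_F] at h ⊢
  obtain ⟨i, hi, h | h⟩ := h
  · exact ⟨i, hi, Or.inr (by rw [h])⟩
  · exact ⟨i, hi, Or.inl (by rw [h, Q.invol])⟩

theorem fl_two {P Q : Pairing M} {A : M → Bool} (hA : ∀ x, A (Q.σ x) = !A x) {S : Finset M}
    (hS : ∀ x ∈ S, Q.σ x ∈ S) (x : M) : fl S A (Q.σ x) = !fl S A x := by
  unfold fl
  by_cases hx : x ∈ S
  · rw [if_pos hx, if_pos (hS x hx), hA]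
  · have h1 : Q.σ x ∉ S := by
      intro h
      have h2 := hS _ h
      rw [Q.invol] at h2
      exact hx h2
    rw [if_neg hx, if_neg h1, hA]

/-- the period of `v` -/
theorem exists_period (P Q : Pairing M) (v : M) : ∃ n : ℕ, 0 < n ∧ ((tau P Q) ^ n) v = v ∧
    ∀ j < n, ∀ i < j, ((tau P Q) ^ j) v ≠ ((tau P Q) ^ i) v := by
  classical
  have hex : ∃ n : ℕ, 0 < n ∧ ((tau P Q) ^ n) v = v :=
    ⟨orderOf (tau P Q), orderOf_pos _, by rw [pow_orderOf_eq_one]; rfl⟩
  refine ⟨Nat.find hex, (Nat.find_spec hex).1, (Nat.find_spec hex).2, ?_⟩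
  intro j hj i hi h
  have h1 : ((tau P Q) ^ (j - i)) v = v := by
    have h2 : (tau P Q) ^ j = (tau P Q) ^ i * (tau P Q) ^ (j - i) := by
      rw [← pow_add]
      congr 1
      omega
    rw [h2, Equiv.Perm.mul_apply] at h
    exact ((tau P Q) ^ i).injective h
  exact Nat.find_min hex (m := j - i) (by omega) ⟨by omega, h1⟩

theorem sum_state {P Q : Pairing M} {A : M → Bool} (hA : Proper P Q A) {v : M} {n : ℕ}
    (hn : ∀ j < n, ∀ i < j, ((tau P Q) ^ j) v ≠ ((tau P Q) ^ i) v) (hv : A v = false)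
    {U : Finset M} (hU : PLow P U) (j : ℕ) (hj : j ≤ n) :
    ∑ x ∈ U, c (fl (F P Q v j) A x) =
      (if v ∈ U then 2 else 0) - (if ((tau P Q) ^ j) v ∈ U then 2 else 0) := by
  induction j with
  | zero =>
    have h1 : ∑ x ∈ U, c (fl (F P Q v 0) A x) = ∑ x ∈ U, c (A x) := by
      refine Finset.sum_congr rfl fun x _ => ?_
      simp [fl, F]
    rw [h1, sum_proper hU hA.1]
    simp
  | succ j ih =>
    rw [sum_fl_succ hA (hn j (by omega)) hv U, ih (by omega)]
    have h1 : Q.σ (((tau P Q) ^ j) v) ∈ U ↔ ((tau P Q) ^ (j + 1)) v ∈ U := by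
      rw [pow_succ', Equiv.Perm.mul_apply, tau_apply, hU.inv]
    simp only [h1]
    ring

theorem walk_one {P Q : Pairing M} {A : M → Bool} (hA : Proper P Q A) {v : M}
    (hv : A v = false) {S : Finset M} (hvS : v ∈ S) (hS1 : ∀ x ∈ S, P.σ x ∈ S)
    (hS2 : ∀ x ∈ S, Q.σ x ∈ S) (hmin : ∀ y ∈ S, P.r v / 2 ≤ P.r y / 2) :
    ∃ S' : Finset M, S' ⊆ S ∧ v ∈ S' ∧ (∀ x ∈ S', P.σ x ∈ S') ∧ (∀ x ∈ S', Q.σ x ∈ S') ∧
      Relation.ReflTransGen (Step P Q) A (fl S' A) := by
  obtain ⟨n, hn0, hn1, hn⟩ := exists_period P Q v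
  have hpow : ∀ i : ℕ, ((tau P Q) ^ i) v ∈ S := by
    intro i
    induction i with
    | zero => exact hvS
    | succ i ih =>
      rw [pow_succ', Equiv.Perm.mul_apply, tau_apply]
      exact hS1 _ (hS2 _ ih)
  have hgood : ∀ j ≤ n, Good P Q (fl (F P Q v j) A) := by
    intro j hj
    refine ⟨fun U hU => ?_, fl_two (P := P) hA.2 fun x hx => F_inv hx⟩
    rw [sum_state hA hn hv hU j hj]
    by_cases h : ((tau P Q) ^ j) v ∈ U
    · have h2 : v ∈ U := hU _ h v (hmin _ (hpow j))
      rw [if_pos h, if_pos h2]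
      norm_num
    · rw [if_neg h]
      split_ifs <;> norm_num
  have hstep : ∀ j < n, Step P Q (fl (F P Q v j) A) (fl (F P Q v (j + 1)) A) := by
    intro j hj
    obtain ⟨h1, h2⟩ := not_mem_F hA (hn j hj)
    refine ⟨hgood j hj.le, hgood (j + 1) hj, ((tau P Q) ^ j) v, Q.σ (((tau P Q) ^ j) v), ?_, ?_,
      fun z => ?_⟩
    · unfold fl
      rw [if_neg h1, pow_color hA, hv]
    · unfold fl
      rw [if_neg h2, hA.2, pow_color hA, hv]
      rfl
    · unfold fl
      by_cases hz : z = ((tau P Q) ^ j) v ∨ z = Q.σ (((tau P Q) ^ j) v)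
      · rw [if_pos hz, if_pos (F_succ.2 (Or.inr hz))]
        have h3 : z ∉ F P Q v j := by
          rcases hz with h | h <;> rw [h]
          · exact h1
          · exact h2
        rw [if_neg h3]
      · rw [if_neg hz]
        by_cases h3 : z ∈ F P Q v j
        · rw [if_pos h3, if_pos (F_succ.2 (Or.inl h3))]
        · rw [if_neg h3, if_neg fun h => (F_succ.1 h).elim h3 hz]
  have hreach : ∀ j ≤ n, Relation.ReflTransGen (Step P Q) A (fl (F P Q v j) A) := by
    intro j hj
    induction j with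
    | zero =>
      have h0 : fl (F P Q v 0) A = A := by
        funext x
        simp [fl, F]
      rw [h0]
    | succ j ih => exact (ih (by omega)).tail (hstep j (by omega))
  refine ⟨F P Q v n, ?_, ?_, ?_, fun x hx => F_inv hx, hreach n le_rfl⟩
  · intro x hx
    rw [mem_F] at hx
    obtain ⟨i, -, h | h⟩ := hx
    · rw [h]; exact hpow i
    · rw [h]; exact hS2 _ (hpow i)
  · rw [mem_F]
    exact ⟨0, hn0, Or.inl rfl⟩
  · intro x hx
    rw [mem_F] at hx ⊢
    obtain ⟨i, hi, h | h⟩ := hx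
    · rcases Nat.eq_zero_or_pos i with h0 | h0
      · refine ⟨n - 1, by omega, Or.inr ?_⟩
        subst h0
        have h4 : ((tau P Q) ^ n) v = P.σ (Q.σ (((tau P Q) ^ (n - 1)) v)) := by
          have : n = (n - 1) + 1 := by omega
          conv_lhs => rw [this, pow_succ', Equiv.Perm.mul_apply, tau_apply]
        have h5 : x = v := h
        rw [h5]
        conv_lhs => rw [← hn1, h4, P.invol]
      · refine ⟨i - 1, by omega, Or.inr ?_⟩
        have h4 : ((tau P Q) ^ i) v = P.σ (Q.σ (((tau P Q) ^ (i - 1)) v)) := by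
          have : i = (i - 1) + 1 := by omega
          conv_lhs => rw [this, pow_succ', Equiv.Perm.mul_apply, tau_apply]
        rw [h, h4, P.invol]
    · have h4 : P.σ x = ((tau P Q) ^ (i + 1)) v := by
        rw [h, pow_succ', Equiv.Perm.mul_apply, tau_apply]
      rcases Nat.lt_or_ge (i + 1) n with h5 | h5
      · exact ⟨i + 1, h5, Or.inl h4⟩
      · refine ⟨0, hn0, Or.inl ?_⟩
        have h6 : i + 1 = n := by omega
        rw [h4, h6, hn1]
        rfl

theorem walk (P Q : Pairing M) : ∀ (k : ℕ) (S : Finset M) (A : M → Bool), S.card ≤ k →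
    Proper P Q A → (∀ x ∈ S, P.σ x ∈ S) → (∀ x ∈ S, Q.σ x ∈ S) →
      Relation.ReflTransGen (Step P Q) A (fl S A) := by
  intro k
  induction k with
  | zero =>
    intro S A hS hA _ _
    have h0 : S = ∅ := Finset.card_eq_zero.1 (by omega)
    subst h0
    have h0 : fl ∅ A = A := by
      funext x
      simp [fl]
    rw [h0]
  | succ k ih =>
    intro S A hS hA hS1 hS2
    rcases S.eq_empty_or_nonempty with h0 | hne
    · subst h0
      have h0 : fl ∅ A = A := by
        funext x
        simp [fl]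
      rw [h0]
    obtain ⟨w, hw, hwmin⟩ := Finset.exists_min_image S P.r hne
    have hex : ∃ v ∈ S, A v = false ∧ ∀ y ∈ S, P.r v / 2 ≤ P.r y / 2 := by
      cases h : A w with
      | false => exact ⟨w, hw, h, fun y hy => Nat.div_le_div_right (hwmin y hy)⟩
      | true =>
        refine ⟨P.σ w, hS1 w hw, by rw [hA.1, h]; rfl, fun y hy => ?_⟩
        rw [P.half]
        exact Nat.div_le_div_right (hwmin y hy)
    obtain ⟨v, hvS, hv, hmin⟩ := hex
    obtain ⟨S', hsub, hvS', h1, h2, hr⟩ := walk_one hA hv hvS hS1 hS2 hmin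
    have hA' : Proper P Q (fl S' A) := ⟨fl_two (P := P) (Q := P) hA.1 h1, fl_two (P := P) hA.2 h2⟩
    have hcard : (S \ S').card ≤ k := by
      have h3 : (S \ S').card < S.card := by
        apply Finset.card_lt_card
        refine ⟨Finset.sdiff_subset, fun h => ?_⟩
        exact (Finset.mem_sdiff.1 (h hvS)).2 hvS'
      omega
    have hinv : ∀ R : Pairing M, (∀ x ∈ S, R.σ x ∈ S) → (∀ x ∈ S', R.σ x ∈ S') →
        ∀ x ∈ S \ S', R.σ x ∈ S \ S' := by
      intro R hR hR' x hx
      rw [Finset.mem_sdiff] at hx ⊢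
      refine ⟨hR x hx.1, fun h => hx.2 ?_⟩
      have h3 := hR' _ h
      rwa [R.invol] at h3
    have h3 := ih (S \ S') (fl S' A) hcard hA' (hinv P hS1 h1) (hinv Q hS2 h2)
    have h4 : fl (S \ S') (fl S' A) = fl S A := by
      funext x
      unfold fl
      by_cases hx : x ∈ S'
      · have hxS := hsub hx
        rw [if_neg (fun h => (Finset.mem_sdiff.1 h).2 hx), if_pos hx, if_pos hxS]
      · by_cases hxS : x ∈ S
        · rw [if_pos (Finset.mem_sdiff.2 ⟨hxS, hx⟩), if_neg hx, if_pos hxS]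
        · rw [if_neg (fun h => hxS (Finset.mem_sdiff.1 h).1), if_neg hx, if_neg hxS]
    rw [h4] at h3
    exact hr.trans h3

/-- the bundle with colour `b` -/
def bun (A : M → Bool) (b : Bool) : Finset M := univ.filter fun x => A x = b

theorem mem_bun {A : M → Bool} {b : Bool} {x : M} : x ∈ bun A b ↔ A x = b := by simp [bun]

/-- no envy up to one good for a set function -/
def EFone (v : Finset M → ℝ) (A : M → Bool) : Prop :=
  ∀ b, bun A b = ∅ ∨ ∃ g ∈ bun A b, v ((bun A b).erase g) ≤ v (bun A !b)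

theorem step_ef {P Q : Pairing M} {v : Finset M → ℝ} (hv : Monotone v) {A B : M → Bool}
    (h : Step P Q A B) (hA : ¬ EFone v A) (hB : ¬ EFone v B)
    (hlt : v (bun A false) < v (bun A true)) : v (bun B false) < v (bun B true) := by
  by_contra hcon
  rw [not_lt] at hcon
  obtain ⟨-, -, x, y, hx, hy, hz⟩ := h
  have hxy : x ≠ y := by
    rintro rfl
    rw [hx] at hy
    exact Bool.noConfusion hy
  have hBx : B x = true := by rw [hz, if_pos (Or.inl rfl), hx]; rfl
  have hBy : B y = false := by rw [hz, if_pos (Or.inr rfl), hy]; rfl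
  -- A is not EF1 for agent 2
  have h1 : v (bun A false) < v ((bun A true).erase y) := by
    by_contra h2
    rw [not_lt] at h2
    apply hA
    intro b
    cases b with
    | true => exact Or.inr ⟨y, mem_bun.2 hy, h2⟩
    | false =>
      exact Or.inr ⟨x, mem_bun.2 hx, (hv (Finset.erase_subset _ _)).trans hlt.le⟩
  apply hB
  intro b
  cases b with
  | true =>
    exact Or.inr ⟨x, mem_bun.2 hBx, (hv (Finset.erase_subset _ _)).trans hcon⟩
  | false =>
    refine Or.inr ⟨y, mem_bun.2 hBy, ?_⟩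
    have h3 : (bun B false).erase y ⊆ bun A false := by
      intro z hz'
      rw [Finset.mem_erase, mem_bun, hz] at hz'
      rw [mem_bun]
      by_cases h4 : z = x ∨ z = y
      · rcases h4 with h5 | h5
        · rw [h5]; exact hx
        · exact absurd h5 hz'.1
      · rw [if_neg h4] at hz'
        exact hz'.2
    have h4 : (bun A true).erase y ⊆ bun B true := by
      intro z hz'
      rw [Finset.mem_erase, mem_bun] at hz'
      rw [mem_bun, hz]
      by_cases h4 : z = x ∨ z = y
      · rcases h4 with h5 | h5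
        · rw [h5, hx] at hz'
          exact absurd hz'.2 (by simp)
        · exact absurd h5 hz'.1
      · rw [if_neg h4]
        exact hz'.2
    exact (hv h3).trans (h1.le.trans (hv h4))

/-- The core: for two pairings and a monotone set function there is an admissible colouring without
envy up to one good. -/
theorem core (P Q : Pairing M) (v : Finset M → ℝ) (hv : Monotone v) :
    ∃ A : M → Bool, Good P Q A ∧ EFone v A := by
  by_contra hcon
  push Not at hcon
  obtain ⟨A₀, hA₀⟩ := exists_proper P Q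
  have hneg : ∀ A : M → Bool, Proper P Q A → Proper P Q (fun x => !A x) := by
    intro A hA
    exact ⟨fun x => congrArg not (hA.1 x), fun x => congrArg not (hA.2 x)⟩
  have hbn : ∀ (A : M → Bool) (b : Bool), bun (fun x => !A x) b = bun A !b := by
    intro A b
    ext x
    rw [mem_bun, mem_bun]
    cases A x <;> cases b <;> simp
  have hne : ∀ A : M → Bool, Proper P Q A → v (bun A false) ≠ v (bun A true) := by
    intro A hA h
    apply hcon A hA.good
    intro b
    rcases (bun A b).eq_empty_or_nonempty with h1 | ⟨g, hg⟩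
    · exact Or.inl h1
    · refine Or.inr ⟨g, hg, (hv (Finset.erase_subset _ _)).trans ?_⟩
      cases b
      · exact h.le
      · exact h.ge
  have hex : ∃ A : M → Bool, Proper P Q A ∧ v (bun A false) < v (bun A true) := by
    rcases lt_or_gt_of_ne (hne A₀ hA₀) with h | h
    · exact ⟨A₀, hA₀, h⟩
    · refine ⟨fun x => !A₀ x, hneg _ hA₀, ?_⟩
      rw [hbn, hbn]
      exact h
  obtain ⟨A, hA, hlt⟩ := hex
  have hreach := walk P Q _ univ A le_rfl hA (fun _ _ => mem_univ _) (fun _ _ => mem_univ _)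
  have hfl : fl univ A = fun x => !A x := by
    funext x
    simp [fl]
  rw [hfl] at hreach
  have hall : ∀ B, Relation.ReflTransGen (Step P Q) A B → v (bun B false) < v (bun B true) := by
    intro B hB
    induction hB with
    | refl => exact hlt
    | tail hAB hBC ih => exact step_ef hv hBC (hcon _ hBC.1) (hcon _ hBC.2.1) ih
  have h1 := hall _ hreach
  rw [hbn, hbn] at h1
  exact absurd h1 (not_lt.2 hlt.le)

end Pool.Agent.Q90.SD
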